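import Mathlib

/-!
# MP_883b72_an : a nontrivial minimal system with the average shadowing property

The system is a one-sided subshift over two letters.  A level is a finite set of words of lengths
`n` and `n + 1`, both occurring.  From a level one passes to the next one by taking all the
concatenations of its words that have length `n'` or `n' + 1` and contain a fixed marker, itself a
concatenation that contains every word of the level; here `n'` is huge compared with the marker.
Every language word occurs in every point with bounded gaps, whence minimality.  A pseudo-orbit is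
first made into a sequence of words of level `k` (with mistakes near the breaks only), and a
sequence of words of level `k` is then turned into a point of the subshift by writing markers of
the levels `k, k + 1, ...` with a total density at most `2 ^ (-k)`.
-/

open Set Filter Topology

namespace Pool.Agent.Results.MP_883b72_an.MinimalASP

/-! ### Words -/

abbrev Word := List Bool

/-- Concatenations of words of `W`. -/
def Cat (W : Set Word) : Set Word := {w | ∃ ls : List Word, (∀ l ∈ ls, l ∈ W) ∧ w = ls.flatten}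

theorem nil_mem_cat (W : Set Word) : [] ∈ Cat W := ⟨[], by simp, by simp⟩

theorem self_mem_cat {W : Set Word} {w : Word} (h : w ∈ W) : w ∈ Cat W :=
  ⟨[w], by simpa using h, by simp⟩

theorem append_mem_cat {W : Set Word} {v w : Word} (hv : v ∈ Cat W) (hw : w ∈ Cat W) :
    v ++ w ∈ Cat W := by
  obtain ⟨ls, hls, rfl⟩ := hv
  obtain ⟨ms, hms, rfl⟩ := hw
  refine ⟨ls ++ ms, ?_, by simp⟩
  intro l hl
  rcases List.mem_append.1 hl with h | h
  · exact hls l h
  · exact hms l h

theorem cat_subset {W W' : Set Word} (h : W' ⊆ Cat W) : Cat W' ⊆ Cat W := by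
  rintro w ⟨ls, hls, rfl⟩
  induction ls with
  | nil => exact nil_mem_cat W
  | cons l ls ih =>
    rw [List.flatten_cons]
    exact append_mem_cat (h (hls l (by simp))) (ih fun m hm => hls m (by simp [hm]))

/-- A level: a finite set of words of lengths `n` and `n + 1`, both of which occur. -/
structure Lev where
  n : ℕ
  W : Set Word
  hn : 1 ≤ n
  fin : W.Finite
  len : ∀ w ∈ W, w.length = n ∨ w.length = n + 1
  exa : ∃ w ∈ W, w.length = n
  exb : ∃ w ∈ W, w.length = n + 1

theorem filler (L : Lev) {l : ℕ} (hl : L.n ^ 2 ≤ l) : ∃ w ∈ Cat L.W, w.length = l := by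
  obtain ⟨a, ha, han⟩ := L.exa
  obtain ⟨b, hb, hbn⟩ := L.exb
  have hn := L.hn
  set n := L.n with hndef
  have hq : n ≤ l / n := by
    rw [Nat.le_div_iff_mul_le hn]
    nlinarith
  have hr : l % n < n := Nat.mod_lt _ hn
  have hl' := Nat.div_add_mod l n
  refine ⟨(List.replicate (l / n - l % n) a ++ List.replicate (l % n) b).flatten,
    ⟨_, ?_, rfl⟩, ?_⟩
  · intro w hw
    rcases List.mem_append.1 hw with h | h
    · rw [List.eq_of_mem_replicate h]; exact ha
    · rw [List.eq_of_mem_replicate h]; exact hb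
  · rw [List.flatten_append, List.length_append, List.length_flatten, List.length_flatten,
      List.map_replicate, List.map_replicate, List.sum_replicate, List.sum_replicate, han, hbn]
    simp only [smul_eq_mul]
    have h1 : l % n ≤ l / n := hr.le.trans hq
    obtain ⟨d, hd⟩ := Nat.exists_eq_add_of_le h1
    have h2 : l / n - l % n = d := by omega
    rw [h2]
    have h3 : n * (l / n) = n * (l % n) + n * d := by rw [hd]; ring
    nlinarith

theorem cut (L : Lev) : ∀ c ∈ Cat L.W, ∀ s ≤ c.length, ∃ c1 c2 : Word, c1 ∈ Cat L.W ∧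
    c2 ∈ Cat L.W ∧ c = c1 ++ c2 ∧ s ≤ c1.length ∧ c1.length ≤ s + L.n := by
  rintro c ⟨ls, hls, rfl⟩
  induction ls with
  | nil =>
    intro s hs
    exact ⟨[], [], nil_mem_cat _, nil_mem_cat _, by simp, by simpa using hs, by simp⟩
  | cons l ls ih =>
    intro s hs
    have hlW : l ∈ L.W := hls l (by simp)
    have hls' : ∀ m ∈ ls, m ∈ L.W := fun m hm => hls m (by simp [hm])
    rcases Nat.eq_zero_or_pos s with rfl | hs0
    · exact ⟨[], (l :: ls).flatten, nil_mem_cat _, ⟨_, hls, rfl⟩, by simp, by simp, by simp⟩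
    · rcases le_or_gt s l.length with h | h
      · refine ⟨l, ls.flatten, self_mem_cat hlW, ⟨ls, hls', rfl⟩, by simp, h, ?_⟩
        have := L.len l hlW
        omega
      · rw [List.flatten_cons, List.length_append] at hs
        obtain ⟨c1, c2, h1, h2, h3, h4, h5⟩ := ih hls' (s - l.length) (by omega)
        refine ⟨l ++ c1, c2, append_mem_cat (self_mem_cat hlW) h1, h2, ?_, ?_, ?_⟩
        · rw [List.flatten_cons, h3, List.append_assoc]
        · rw [List.length_append]; omega
        · rw [List.length_append]; omega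

/-- The relation between two consecutive levels; `p` is the marker. -/
structure Next (K : ℕ) (L : Lev) (p : Word) (L' : Lev) : Prop where
  pcat : p ∈ Cat L.W
  inf : ∀ w ∈ L.W, w <:+: p
  W : L'.W = {w | w ∈ Cat L.W ∧ (w.length = L'.n ∨ w.length = L'.n + 1) ∧ p <:+ w}
  big : K * (p.length + L.n ^ 2 + L.n) ≤ L'.n

theorem next_exists (K : ℕ) (L : Lev) : ∃ (p : Word) (L' : Lev), Next K L p L' := by
  classical
  set p : Word := L.fin.toFinset.toList.flatten with hp
  have hpc : p ∈ Cat L.W := ⟨_, by simp, rfl⟩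
  have hpi : ∀ w ∈ L.W, w <:+: p := by
    intro w hw
    have : w ∈ L.fin.toFinset.toList := by simpa using hw
    exact List.infix_of_mem_flatten this
  set n' := (K + 1) * (p.length + L.n ^ 2 + L.n) + 1 with hn'
  have hbase : p.length + L.n ^ 2 ≤ n' := by
    rw [hn']
    nlinarith [Nat.zero_le (K * (p.length + L.n ^ 2 + L.n))]
  have hex : ∀ m, n' ≤ m → ∃ w, w ∈ Cat L.W ∧ w.length = m ∧ p <:+ w := by
    intro m hm
    obtain ⟨f, hf, hfl⟩ := filler L (l := m - p.length) (by omega)
    refine ⟨f ++ p, append_mem_cat hf hpc, ?_, List.suffix_append f p⟩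
    rw [List.length_append, hfl]
    omega
  refine ⟨p, ⟨n', {w | w ∈ Cat L.W ∧ (w.length = n' ∨ w.length = n' + 1) ∧ p <:+ w}, by omega,
    ?_, fun w hw => hw.2.1, ?_, ?_⟩, hpc, hpi, rfl, ?_⟩
  · refine (List.finite_length_le Bool (n' + 1)).subset ?_
    intro w hw
    have := hw.2.1
    show w.length ≤ n' + 1
    omega
  · obtain ⟨w, h1, h2, h3⟩ := hex n' le_rfl
    exact ⟨w, ⟨h1, Or.inl h2, h3⟩, h2⟩
  · obtain ⟨w, h1, h2, h3⟩ := hex (n' + 1) (by omega)
    exact ⟨w, ⟨h1, Or.inr h2, h3⟩, h2⟩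
  · show K * (p.length + L.n ^ 2 + L.n) ≤ n'
    rw [hn']
    nlinarith

/-- The level of all words of length one or two. -/
def lev0 : Lev where
  n := 1
  W := {w | w.length = 1 ∨ w.length = 2}
  hn := le_rfl
  fin := (List.finite_length_le Bool 2).subset (by
    intro w hw
    have hw' : w.length = 1 ∨ w.length = 2 := hw
    show w.length ≤ 2
    omega)
  len := fun _ hw => hw
  exa := ⟨[false], Or.inl rfl, rfl⟩
  exb := ⟨[false, false], Or.inr rfl, rfl⟩

/-- The sequence of levels. -/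
noncomputable def lev : ℕ → Lev
  | 0 => lev0
  | k + 1 => (next_exists (8 * 2 ^ k) (lev k)).choose_spec.choose

/-- The markers. -/
noncomputable def mk (k : ℕ) : Word := (next_exists (8 * 2 ^ k) (lev k)).choose

theorem next_lev (k : ℕ) : Next (8 * 2 ^ k) (lev k) (mk k) (lev (k + 1)) :=
  (next_exists (8 * 2 ^ k) (lev k)).choose_spec.choose_spec

/-- The lengths. -/
noncomputable def nn (k : ℕ) : ℕ := (lev k).n

/-- The error of one step. -/
noncomputable def EE (k : ℕ) : ℕ := (mk k).length + nn k ^ 2 + nn k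

theorem nn_pos (k : ℕ) : 1 ≤ nn k := (lev k).hn

theorem EE_pos (k : ℕ) : 1 ≤ EE k := by
  have := nn_pos k
  unfold EE
  omega

theorem big (k : ℕ) : 8 * 2 ^ k * EE k ≤ nn (k + 1) := (next_lev k).big

theorem nn_lt (k : ℕ) : nn k < nn (k + 1) := by
  have h := big k
  have h1 : 1 ≤ 2 ^ k := Nat.one_le_two_pow
  have h2 : nn k ≤ EE k := by unfold EE; omega
  have h3 := EE_pos k
  nlinarith

theorem le_nn (k : ℕ) : k ≤ nn k := by
  induction k with
  | zero => omega
  | succ k ih =>
    have := nn_lt k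
    omega

theorem W_succ (k : ℕ) : (lev (k + 1)).W ⊆ Cat (lev k).W := by
  intro w hw
  rw [(next_lev k).W] at hw
  exact hw.1

theorem cat_le {j k : ℕ} (h : j ≤ k) : Cat (lev k).W ⊆ Cat (lev j).W := by
  induction k, h using Nat.le_induction with
  | base => exact subset_rfl
  | succ k _ ih => exact (cat_subset (W_succ k)).trans ih

theorem mk_suffix {k : ℕ} {w : Word} (hw : w ∈ (lev (k + 1)).W) : mk k <:+ w := by
  rw [(next_lev k).W] at hw
  exact hw.2.2

theorem infix_succ {k : ℕ} {v w : Word} (hv : v ∈ (lev k).W) (hw : w ∈ (lev (k + 1)).W) :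
    v <:+: w :=
  ((next_lev k).inf v hv).trans (mk_suffix hw).isInfix

theorem infix_lt {j k : ℕ} (h : j < k) : ∀ {v w : Word}, v ∈ (lev j).W → w ∈ (lev k).W →
    v <:+: w := by
  induction k, h using Nat.le_induction with
  | base => intro v w hv hw; exact infix_succ hv hw
  | succ k _ ih =>
    intro v w hv hw
    obtain ⟨a, ha, _⟩ := (lev k).exa
    exact (ih hv ha).trans (infix_succ ha hw)

/-- The language. -/
def Lang : Set Word := {w | ∃ k, ∃ v ∈ (lev k).W, w <:+: v}

theorem lang_cat {w : Word} (hw : w ∈ Lang) (k : ℕ) : ∃ c ∈ Cat (lev k).W, w <:+: c := by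
  obtain ⟨j, v, hv, hwv⟩ := hw
  rcases le_or_gt k j with h | h
  · exact ⟨v, cat_le h (self_mem_cat hv), hwv⟩
  · obtain ⟨a, ha, _⟩ := (lev k).exa
    exact ⟨a, self_mem_cat ha, hwv.trans (infix_lt h hv ha)⟩

theorem lang_infix {v w : Word} (hw : w ∈ Lang) (h : v <:+: w) : v ∈ Lang := by
  obtain ⟨k, a, ha, hwa⟩ := hw
  exact ⟨k, a, ha, h.trans hwa⟩

/-! ### Sequences -/

/-- The word `x_b ... x_{b+m-1}`. -/
def blk (x : ℕ → Bool) (b m : ℕ) : Word := (List.range m).map fun i => x (b + i)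

theorem blk_length (x : ℕ → Bool) (b m : ℕ) : (blk x b m).length = m := by simp [blk]

theorem blk_get (x : ℕ → Bool) (b : ℕ) {m i : ℕ} (h : i < m) :
    (blk x b m)[i]? = some (x (b + i)) := by
  simp [blk, h]

theorem eq_blk {x : ℕ → Bool} {b m : ℕ} {w : Word} (hl : w.length = m)
    (h : ∀ i < m, w[i]? = some (x (b + i))) : w = blk x b m := by
  apply List.ext_getElem?
  intro i
  rcases lt_or_ge i m with hi | hi
  · rw [h i hi, blk_get x b hi]
  · rw [List.getElem?_eq_none (by omega), List.getElem?_eq_none (by rw [blk_length]; omega)]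

theorem blk_append (x : ℕ → Bool) (b m l : ℕ) : blk x b m ++ blk x (b + m) l = blk x b (m + l) := by
  refine eq_blk (by rw [List.length_append, blk_length, blk_length]) fun i hi => ?_
  rcases lt_or_ge i m with h | h
  · rw [List.getElem?_append_left (by rw [blk_length]; exact h), blk_get x b h]
  · rw [List.getElem?_append_right (by rw [blk_length]; exact h), blk_length,
      blk_get x _ (by omega)]
    congr 2
    omega

theorem infix_blk {x : ℕ → Bool} {b m : ℕ} {w : Word} (h : w <:+: blk x b m) :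
    ∃ i, w = blk x (b + i) w.length ∧ i + w.length ≤ m := by
  obtain ⟨s, t, hst⟩ := h
  have hlen := congrArg List.length hst
  rw [List.length_append, List.length_append, blk_length] at hlen
  refine ⟨s.length, eq_blk rfl fun i hi => ?_, by omega⟩
  have h1 : (s ++ w ++ t)[s.length + i]? = w[i]? := by
    rw [List.append_assoc, List.getElem?_append_right (by omega),
      List.getElem?_append_left (by omega)]
    congr 1
    omega
  rw [← h1, hst, blk_get x b (by omega)]
  congr 2
  omega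

theorem blk_infix (x : ℕ → Bool) {b m b' m' : ℕ} (h1 : b' ≤ b) (h2 : b + m ≤ b' + m') :
    blk x b m <:+: blk x b' m' := by
  refine ⟨blk x b' (b - b'), blk x (b + m) (b' + m' - (b + m)), ?_⟩
  have e1 : b = b' + (b - b') := by omega
  rw [show blk x b' (b - b') ++ blk x b m = blk x b' (b - b' + m) by
    conv_lhs => rw [show blk x b m = blk x (b' + (b - b')) m by rw [← e1]]
    rw [blk_append]]
  have e2 : b + m = b' + (b - b' + m) := by omega
  conv_lhs => rw [show blk x (b + m) (b' + m' - (b + m)) =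
    blk x (b' + (b - b' + m)) (b' + m' - (b + m)) by rw [← e2]]
  rw [blk_append]
  congr 1
  omega

/-- The subshift. -/
def XX : Set (ℕ → Bool) := {x | ∀ m, blk x 0 m ∈ Lang}

theorem blk_mem_lang {x : ℕ → Bool} (hx : x ∈ XX) (b m : ℕ) : blk x b m ∈ Lang :=
  lang_infix (hx (b + m)) (blk_infix x (by omega) (by omega))

theorem shift_mem {x : ℕ → Bool} (hx : x ∈ XX) (b : ℕ) : (fun i => x (b + i)) ∈ XX := by
  intro m
  have h : blk (fun i => x (b + i)) 0 m = blk x b m := by
    unfold blk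
    simp
  rw [h]
  exact blk_mem_lang hx b m

/-- Every word of the language occurs in every point. -/
theorem occurs {x : ℕ → Bool} (hx : x ∈ XX) {w : Word} (hw : w ∈ Lang) :
    ∃ i, w = blk x i w.length := by
  obtain ⟨k, v, hv, hwv⟩ := hw
  set n' := nn (k + 1) with hn'
  obtain ⟨c, hc, hxc⟩ := lang_cat (hx (2 * n' + 2)) (k + 1)
  obtain ⟨A, B, hAB⟩ := hxc
  have hlen := congrArg List.length hAB
  rw [List.length_append, List.length_append, blk_length] at hlen
  obtain ⟨c1, c2, h1, ⟨ls, hls, h2⟩, h3, h4, h5⟩ := cut (lev (k + 1)) c hc A.length (by omega)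
  have h5' : c1.length ≤ A.length + n' := h5
  have hlen2 := congrArg List.length h3
  rw [List.length_append] at hlen2
  cases ls with
  | nil =>
    exfalso
    rw [h2] at hlen2
    simp at hlen2
    omega
  | cons l ls =>
    have hl : l ∈ (lev (k + 1)).W := hls l (by simp)
    have hll : l.length ≤ n' + 1 := by
      rcases (lev (k + 1)).len l hl with h | h
      · rw [h]; exact Nat.le_succ _
      · rw [h]; exact le_rfl
    have hlb : l = blk x (c1.length - A.length) l.length := by
      refine eq_blk rfl fun i hi => ?_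
      have e1 : (c)[c1.length + i]? = l[i]? := by
        rw [h3, List.getElem?_append_right (by omega), h2, List.flatten_cons,
          List.getElem?_append_left (by omega)]
        congr 1
        omega
      have e2 : (c)[c1.length + i]? = some (x (c1.length - A.length + i)) := by
        rw [← hAB, List.append_assoc, List.getElem?_append_right (by omega),
          List.getElem?_append_left (by rw [blk_length]; omega), blk_get x 0 (by omega)]
        congr 2
        omega
      rw [← e1, e2]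
    have hwl : w <:+: l := hwv.trans (infix_succ hv hl)
    rw [hlb] at hwl
    obtain ⟨i, hi, _⟩ := infix_blk hwl
    exact ⟨_, hi⟩

/-! ### Approximation of one word -/

theorem mem_succ {k : ℕ} {w : Word} (h1 : w ∈ Cat (lev k).W) (h2 : w.length = nn (k + 1))
    (h3 : mk k <:+ w) : w ∈ (lev (k + 1)).W := by
  rw [(next_lev k).W]
  exact ⟨h1, Or.inl h2, h3⟩

theorem approx (k : ℕ) (w : Word) (hw : ∃ c ∈ Cat (lev k).W, w <:+: c)
    (hlen : w.length = nn (k + 1)) : ∃ w' ∈ (lev (k + 1)).W, w'.length = nn (k + 1) ∧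
      ∀ i, EE k ≤ i → i + EE k < nn (k + 1) → w'[i]? = w[i]? := by
  obtain ⟨c, hc, A, B, hAB⟩ := hw
  have hb := big k
  have h2k : 1 ≤ 2 ^ k := Nat.one_le_two_pow
  have hb' : 8 * EE k ≤ nn (k + 1) := by nlinarith
  have hE : EE k = (mk k).length + nn k ^ 2 + nn k := rfl
  have hl := congrArg List.length hAB
  rw [List.length_append, List.length_append] at hl
  obtain ⟨c1, c2, h1, h2, h3, h4, h5⟩ := cut (lev k) c hc (A.length + nn k ^ 2) (by omega)
  have h5' : c1.length ≤ A.length + nn k ^ 2 + nn k := h5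
  have hl3 := congrArg List.length h3
  rw [List.length_append] at hl3
  obtain ⟨c3, c4, g1, g2, g3, g4, g5⟩ := cut (lev k) c2 h2
    (A.length + nn (k + 1) - (mk k).length - nn k ^ 2 - nn k - c1.length) (by omega)
  have g5' : c3.length ≤
    A.length + nn (k + 1) - (mk k).length - nn k ^ 2 - nn k - c1.length + nn k := g5
  obtain ⟨f1, hf1, hf1l⟩ := filler (lev k) (l := c1.length - A.length)
    (show nn k ^ 2 ≤ _ by omega)
  obtain ⟨f2, hf2, hf2l⟩ := filler (lev k)
    (l := A.length + nn (k + 1) - (mk k).length - (c1.length + c3.length))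
    (show nn k ^ 2 ≤ _ by omega)
  have hlen' : (f1 ++ (c3 ++ (f2 ++ mk k))).length = nn (k + 1) := by
    simp only [List.length_append]
    omega
  refine ⟨f1 ++ (c3 ++ (f2 ++ mk k)), mem_succ ?_ hlen' ?_, hlen', ?_⟩
  · exact append_mem_cat hf1 (append_mem_cat g1 (append_mem_cat hf2 (next_lev k).pcat))
  · exact ⟨f1 ++ (c3 ++ f2), by simp⟩
  · intro i hi1 hi2
    rw [List.getElem?_append_right (by omega), List.getElem?_append_left (by omega)]
    have e1 : (c)[A.length + i]? = w[i]? := by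
      rw [← hAB, List.append_assoc, List.getElem?_append_right (by omega),
        List.getElem?_append_left (by omega)]
      congr 1
      omega
    have e2 : (c)[A.length + i]? = c3[i - f1.length]? := by
      rw [h3, g3, List.getElem?_append_right (by omega), List.getElem?_append_left (by omega)]
      congr 1
      omega
    rw [← e1, e2]

theorem approx0 (k : ℕ) (w : Word) (hw : ∃ c ∈ Cat (lev k).W, w <+: c)
    (hlen : w.length = nn (k + 1)) : ∃ w' ∈ (lev (k + 1)).W, w'.length = nn (k + 1) ∧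
      ∀ i, i + EE k < nn (k + 1) → w'[i]? = w[i]? := by
  obtain ⟨c, hc, B, hAB⟩ := hw
  have hb := big k
  have h2k : 1 ≤ 2 ^ k := Nat.one_le_two_pow
  have hb' : 8 * EE k ≤ nn (k + 1) := by nlinarith
  have hE : EE k = (mk k).length + nn k ^ 2 + nn k := rfl
  have hl := congrArg List.length hAB
  rw [List.length_append] at hl
  obtain ⟨c3, c4, g1, g2, g3, g4, g5⟩ := cut (lev k) c hc
    (nn (k + 1) - (mk k).length - nn k ^ 2 - nn k) (by omega)
  have g5' : c3.length ≤ nn (k + 1) - (mk k).length - nn k ^ 2 - nn k + nn k := g5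
  obtain ⟨f2, hf2, hf2l⟩ := filler (lev k) (l := nn (k + 1) - (mk k).length - c3.length)
    (show nn k ^ 2 ≤ _ by omega)
  have hlen' : (c3 ++ (f2 ++ mk k)).length = nn (k + 1) := by
    simp only [List.length_append]
    omega
  refine ⟨c3 ++ (f2 ++ mk k), mem_succ ?_ hlen' ?_, hlen', ?_⟩
  · exact append_mem_cat g1 (append_mem_cat hf2 (next_lev k).pcat)
  · exact ⟨c3 ++ f2, by simp⟩
  · intro i hi
    rw [List.getElem?_append_left (by omega)]
    have e1 : (c)[i]? = w[i]? := by
      rw [← hAB, List.getElem?_append_left (by omega)]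
    have e2 : (c)[i]? = c3[i]? := by
      rw [g3, List.getElem?_append_left (by omega)]
    rw [← e1, e2]

/-! ### Aligned sequences -/

/-- All blocks `[t n_k, (t + 1) n_k)` are words of the `k`-th level. -/
def Al (k : ℕ) (v : ℕ → Bool) : Prop := ∀ t, blk v (t * nn k) (nn k) ∈ (lev k).W

theorem al_cat {k : ℕ} {v : ℕ → Bool} (hv : Al k v) (s : ℕ) :
    blk v 0 (s * nn k) ∈ Cat (lev k).W := by
  induction s with
  | zero => simpa [blk] using nil_mem_cat _
  | succ s ih =>
    have h := append_mem_cat ih (self_mem_cat (hv s))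
    have h2 := blk_append v 0 (s * nn k) (nn k)
    rw [Nat.zero_add] at h2
    rw [h2] at h
    have h3 : (s + 1) * nn k = s * nn k + nn k := by ring
    rw [h3]
    exact h

theorem blk_prefix (x : ℕ → Bool) {m l : ℕ} (h : m ≤ l) : blk x 0 m <+: blk x 0 l := by
  obtain ⟨d, rfl⟩ := Nat.exists_eq_add_of_le h
  refine ⟨blk x m d, ?_⟩
  have := blk_append x 0 m d
  rwa [Nat.zero_add] at this

/-- The positions which may be changed in the step from level `k` to level `k + 1`. -/
def Bad (k i : ℕ) : Prop := nn (k + 1) ≤ i + EE k ∧ (i + EE k) % nn (k + 1) < 2 * EE k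

theorem glue {n' : ℕ} (hn : 1 ≤ n') (w : ℕ → Word) (hw : ∀ t, (w t).length = n') :
    ∃ v : ℕ → Bool, (∀ t, blk v (t * n') n' = w t) ∧
      ∀ i, (w (i / n'))[i % n']? = some (v i) := by
  have hr : ∀ i, i % n' < n' := fun i => Nat.mod_lt _ hn
  have key : ∀ i, (w (i / n'))[i % n']? = some (((w (i / n'))[i % n']?).getD false) := by
    intro i
    rw [List.getElem?_eq_getElem (by rw [hw]; exact hr i)]
    simp
  refine ⟨fun i => ((w (i / n'))[i % n']?).getD false, fun t => ?_, key⟩
  symm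
  refine eq_blk (hw t) fun i hi => ?_
  have h1 : (t * n' + i) / n' = t := by
    rw [Nat.add_comm, Nat.add_mul_div_right _ _ hn, Nat.div_eq_of_lt hi, Nat.zero_add]
  have h2 : (t * n' + i) % n' = i := by
    rw [Nat.add_comm, Nat.add_mul_mod_self_right, Nat.mod_eq_of_lt hi]
  have h3 := key (t * n' + i)
  rw [h1, h2] at h3
  simpa [h1, h2] using h3

theorem refine_al {k : ℕ} {v : ℕ → Bool} (hv : Al k v) :
    ∃ v' : ℕ → Bool, Al (k + 1) v' ∧ ∀ i, v' i ≠ v i → Bad k i := by
  have hb := big k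
  have h2k : 1 ≤ 2 ^ k := Nat.one_le_two_pow
  have hb' : 8 * EE k ≤ nn (k + 1) := by nlinarith
  have hnn := nn_pos k
  have hnn' := nn_pos (k + 1)
  have hE := EE_pos k
  have hex : ∀ t : ℕ, ∃ w' ∈ (lev (k + 1)).W, w'.length = nn (k + 1) ∧
      ∀ i, (t ≠ 0 → EE k ≤ i) → i + EE k < nn (k + 1) →
        w'[i]? = (blk v (t * nn (k + 1)) (nn (k + 1)))[i]? := by
    intro t
    rcases Nat.eq_zero_or_pos t with rfl | ht
    · obtain ⟨w', h1, h2, h3⟩ := approx0 k (blk v 0 (nn (k + 1)))
        ⟨_, al_cat hv (nn (k + 1)), blk_prefix v (by nlinarith)⟩ (blk_length _ _ _)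
      refine ⟨w', h1, h2, fun i _ hi => ?_⟩
      rw [Nat.zero_mul]
      exact h3 i hi
    · obtain ⟨w', h1, h2, h3⟩ := approx k (blk v (t * nn (k + 1)) (nn (k + 1)))
        ⟨_, al_cat hv ((t + 1) * nn (k + 1)), blk_infix v (by omega) (by
          have e1 : (t + 1) * nn (k + 1) ≤ (t + 1) * nn (k + 1) * nn k :=
            Nat.le_mul_of_pos_right _ hnn
          have e2 : (t + 1) * nn (k + 1) = t * nn (k + 1) + nn (k + 1) := by ring
          omega)⟩
        (blk_length _ _ _)
      exact ⟨w', h1, h2, fun i hi1 hi2 => h3 i (hi1 ht.ne') hi2⟩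
  choose w hwW hwl hw using hex
  obtain ⟨v', hv', hvi⟩ := glue hnn' w hwl
  refine ⟨v', fun t => by rw [hv']; exact hwW t, fun i hi => ?_⟩
  set n' := nn (k + 1) with hn'
  have hr : i % n' < n' := Nat.mod_lt _ hnn'
  have hdm := Nat.div_add_mod i n'
  by_contra hbad
  apply hi
  have hcond : (i / n' ≠ 0 → EE k ≤ i % n') ∧ i % n' + EE k < n' := by
    by_contra hc
    apply hbad
    rw [not_and_or] at hc
    have hcase : (i / n' ≠ 0 ∧ i % n' < EE k) ∨ n' ≤ i % n' + EE k := by
      rcases hc with h | h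
      · left
        push Not at h
        exact h
      · right; omega
    rcases hcase with ⟨h1, h2⟩ | h
    · have h3 : n' ≤ i := by
        by_contra h4
        exact h1 (Nat.div_eq_of_lt (by omega))
      refine ⟨by omega, ?_⟩
      have h4 : i + EE k = (i % n' + EE k) + n' * (i / n') := by omega
      rw [h4, Nat.add_mul_mod_self_left, Nat.mod_eq_of_lt (by omega)]
      omega
    · refine ⟨by
        have := Nat.mod_le i n'
        omega, ?_⟩
      have h4 : i + EE k = (i % n' + EE k - n') + n' * (i / n' + 1) := by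
        rw [Nat.mul_add]
        omega
      rw [h4, Nat.add_mul_mod_self_left, Nat.mod_eq_of_lt (by omega)]
      omega
  have h1 := hvi i
  rw [hw (i / n') (i % n') hcond.1 hcond.2, blk_get v _ hr] at h1
  have h2 : i / n' * n' + i % n' = i := by
    rw [Nat.mul_comm]
    exact hdm
  rw [h2] at h1
  exact (Option.some_injective _ h1).symm

/-- The number of `i < n` with `P i`. -/
noncomputable def cnt (P : ℕ → Prop) (n : ℕ) : ℕ := {i : ℕ | i < n ∧ P i}.ncard

theorem cnt_fin (P : ℕ → Prop) (n : ℕ) : {i : ℕ | i < n ∧ P i}.Finite :=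
  (Set.finite_Iio n).subset fun _ hi => hi.1

theorem cnt_mono {P Q : ℕ → Prop} (h : ∀ i, P i → Q i) (n : ℕ) : cnt P n ≤ cnt Q n :=
  Set.ncard_le_ncard (fun _ hi => ⟨hi.1, h _ hi.2⟩) (cnt_fin Q n)

theorem cnt_or (P Q : ℕ → Prop) (n : ℕ) : cnt (fun i => P i ∨ Q i) n ≤ cnt P n + cnt Q n := by
  refine le_trans (Set.ncard_le_ncard (t := {i : ℕ | i < n ∧ P i} ∪ {i : ℕ | i < n ∧ Q i}) ?_
    ((cnt_fin P n).union (cnt_fin Q n))) (Set.ncard_union_le _ _)
  rintro i ⟨hi, h | h⟩
  · exact Or.inl ⟨hi, h⟩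
  · exact Or.inr ⟨hi, h⟩

theorem cnt_le_of_le (P : ℕ → Prop) {m n : ℕ} (h : m ≤ n) : cnt P m ≤ cnt P n :=
  Set.ncard_le_ncard (fun _ hi => ⟨lt_of_lt_of_le hi.1 h, hi.2⟩) (cnt_fin P n)

/-- Counting positions with a small residue. -/
theorem cnt_mod (n' E e n : ℕ) (hn : 1 ≤ n') :
    cnt (fun i => n' ≤ i + e ∧ (i + e) % n' < E) n ≤ E * ((n + e) / n') := by
  unfold cnt
  have h : {i : ℕ | i < n ∧ (n' ≤ i + e ∧ (i + e) % n' < E)}.ncard ≤
      ((Finset.Icc 1 ((n + e) / n') ×ˢ Finset.range E : Finset (ℕ × ℕ)) : Set (ℕ × ℕ)).ncard := by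
    refine Set.ncard_le_ncard_of_injOn (fun i => ((i + e) / n', (i + e) % n')) ?_ ?_
      (Finset.finite_toSet _)
    · rintro i ⟨hi1, hi2, hi3⟩
      rw [Finset.mem_coe, Finset.mem_product]
      refine ⟨Finset.mem_Icc.2 ⟨?_, ?_⟩, Finset.mem_range.2 hi3⟩
      · show 1 ≤ (i + e) / n'
        rw [Nat.le_div_iff_mul_le hn]
        omega
      · exact Nat.div_le_div_right (by omega)
    · intro i _ j _ hij
      simp only [Prod.mk.injEq] at hij
      have h1 := Nat.div_add_mod (i + e) n'
      have h2 := Nat.div_add_mod (j + e) n'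
      rw [hij.1, hij.2] at h1
      omega
  refine h.trans ?_
  rw [Set.ncard_coe_finset, Finset.card_product, Nat.card_Icc, Finset.card_range]
  simp only [Nat.add_sub_cancel]
  rw [Nat.mul_comm]

theorem bad_count (k n : ℕ) : cnt (Bad k) n * 2 ^ (k + 1) ≤ n := by
  have hb := big k
  have h2k : 1 ≤ 2 ^ k := Nat.one_le_two_pow
  have hE := EE_pos k
  have h := cnt_mod (nn (k + 1)) (2 * EE k) (EE k) n (nn_pos (k + 1))
  have h' : cnt (Bad k) n ≤ 2 * EE k * ((n + EE k) / nn (k + 1)) := h
  set q := (n + EE k) / nn (k + 1) with hq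
  have hq1 : q * nn (k + 1) ≤ n + EE k := Nat.div_mul_le_self _ _
  rcases Nat.eq_zero_or_pos q with h0 | h0
  · rw [h0, Nat.mul_zero] at h'
    have : cnt (Bad k) n = 0 := by omega
    rw [this]
    simp
  · have h1 : nn (k + 1) ≤ n + EE k := by nlinarith
    have h2 : EE k ≤ n := by nlinarith
    have h3 : q * (8 * 2 ^ k * EE k) ≤ 2 * n := by
      calc q * (8 * 2 ^ k * EE k) ≤ q * nn (k + 1) := Nat.mul_le_mul_left _ hb
        _ ≤ n + EE k := hq1
        _ ≤ 2 * n := by omega
    calc cnt (Bad k) n * 2 ^ (k + 1) ≤ 2 * EE k * q * 2 ^ (k + 1) := Nat.mul_le_mul_right _ h'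
      _ = 2 * EE k * q * (2 * 2 ^ k) := by rw [pow_succ]; ring
      _ ≤ n := by nlinarith

theorem bad_le {k i : ℕ} (h : Bad k i) : k ≤ i := by
  have hb := big k
  have h2k : k < 2 ^ k := Nat.lt_two_pow_self
  have hE := EE_pos k
  have h1 := h.1
  have h3 : EE k ≤ 2 ^ k * EE k := Nat.le_mul_of_pos_left _ (by positivity)
  have h4 : 2 ^ k ≤ 2 ^ k * EE k := Nat.le_mul_of_pos_right _ hE
  nlinarith

/-- Points of the subshift near aligned sequences. -/
theorem limit {k : ℕ} {v : ℕ → Bool} (hv : Al k v) :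
    ∃ y ∈ XX, ∀ n, (cnt (fun i => y i ≠ v i) n : ℝ) ≤ n * (1 / 2) ^ k := by
  classical
  have hstep : ∀ (j : ℕ) (V : {V : ℕ → Bool // Al (k + j) V}),
      ∃ V' : {V : ℕ → Bool // Al (k + (j + 1)) V}, ∀ i, V'.1 i ≠ V.1 i → Bad (k + j) i := by
    intro j V
    obtain ⟨V', h1, h2⟩ := refine_al V.2
    exact ⟨⟨V', h1⟩, h2⟩
  choose nxt hnxt using hstep
  let V : (j : ℕ) → {V : ℕ → Bool // Al (k + j) V} :=
    fun j => Nat.rec ⟨v, hv⟩ (fun j V => nxt j V) j
  have hVs : ∀ j i, (V (j + 1)).1 i ≠ (V j).1 i → Bad (k + j) i := fun j i => hnxt j (V j) i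
  have hst : ∀ i j, i < j → (V j).1 i = (V (i + 1)).1 i := by
    intro i j hij
    induction j, hij using Nat.le_induction with
    | base => rfl
    | succ j hj ih =>
      rw [← ih]
      by_contra hne
      have := bad_le (hVs j i hne)
      omega
  refine ⟨fun i => (V (i + 1)).1 i, ?_, ?_⟩
  · intro m
    have e : blk (fun i => (V (i + 1)).1 i) 0 m = blk (V (m + 1)).1 0 m := by
      refine eq_blk (blk_length _ _ _) fun i hi => ?_
      rw [blk_get _ _ hi, Nat.zero_add, hst i (m + 1) (by omega)]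
    rw [e]
    have h1 := (V (m + 1)).2 0
    rw [Nat.zero_mul] at h1
    refine ⟨_, _, h1, (blk_prefix _ ?_).isInfix⟩
    have := le_nn (k + (m + 1))
    omega
  · intro n
    have h1 : ∀ j, (cnt (fun i => (V j).1 i ≠ v i) n : ℝ) ≤
        n * ((1 / 2) ^ k * (1 - (1 / 2) ^ j)) := by
      intro j
      induction j with
      | zero =>
        have h0 : {i : ℕ | i < n ∧ (V 0).1 i ≠ v i} = ∅ := by
          ext i
          simp only [mem_empty_iff_false, iff_false]
          rintro ⟨_, hi⟩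
          exact hi rfl
        have h1 : cnt (fun i => (V 0).1 i ≠ v i) n = 0 := by
          unfold cnt
          rw [h0, Set.ncard_empty]
        rw [h1]
        simp
      | succ j ih =>
        have h2 : cnt (fun i => (V (j + 1)).1 i ≠ v i) n ≤
            cnt (Bad (k + j)) n + cnt (fun i => (V j).1 i ≠ v i) n := by
          refine (cnt_mono ?_ n).trans (cnt_or _ _ n)
          intro i hi
          by_cases h3 : (V (j + 1)).1 i = (V j).1 i
          · right
            rw [← h3]
            exact hi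
          · left
            exact hVs j i h3
        have h3 : (cnt (Bad (k + j)) n : ℝ) ≤ n * ((1 / 2) ^ k * (1 / 2) ^ (j + 1)) := by
          have h4 := bad_count (k + j) n
          have h5 : (cnt (Bad (k + j)) n : ℝ) * 2 ^ (k + j + 1) ≤ n := by exact_mod_cast h4
          have h6 : ((1 : ℝ) / 2) ^ k * (1 / 2) ^ (j + 1) = 1 / 2 ^ (k + j + 1) := by
            rw [← pow_add, one_div_pow, add_assoc]
          rw [h6, mul_one_div, le_div_iff₀ (by positivity)]
          exact h5
        have h7 : (cnt (fun i => (V (j + 1)).1 i ≠ v i) n : ℝ) ≤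
            cnt (Bad (k + j)) n + cnt (fun i => (V j).1 i ≠ v i) n := by exact_mod_cast h2
        refine h7.trans ((add_le_add h3 ih).trans (le_of_eq ?_))
        rw [pow_succ]
        ring
    have h2 : cnt (fun i => (V (i + 1)).1 i ≠ v i) n ≤ cnt (fun i => (V (n + 1)).1 i ≠ v i) n := by
      refine Set.ncard_le_ncard ?_ (cnt_fin _ n)
      rintro i ⟨hi1, hi2⟩
      refine ⟨hi1, ?_⟩
      show (V (n + 1)).1 i ≠ v i
      rw [hst i (n + 1) (by omega)]
      exact hi2
    have h3 : (cnt (fun i => (V (i + 1)).1 i ≠ v i) n : ℝ) ≤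
        cnt (fun i => (V (n + 1)).1 i ≠ v i) n := by exact_mod_cast h2
    refine h3.trans ((h1 (n + 1)).trans ?_)
    apply mul_le_mul_of_nonneg_left _ (Nat.cast_nonneg n)
    have : (0 : ℝ) ≤ (1 / 2) ^ k * (1 / 2) ^ (n + 1) := by positivity
    nlinarith

/-! ### Counting -/

theorem cnt_eq (P : ℕ → Prop) (n : ℕ) [DecidablePred P] :
    cnt P n = ((Finset.range n).filter P).card := by
  unfold cnt
  rw [← Set.ncard_coe_finset]
  congr 1
  ext i
  simp

theorem cnt_mul_le {P : ℕ → Prop} {g : ℕ → ℝ} {c : ℝ} (h0 : ∀ i, 0 ≤ g i) (h : ∀ i, P i → c ≤ g i)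
    (n : ℕ) : cnt P n * c ≤ ∑ i ∈ Finset.range n, g i := by
  classical
  rw [cnt_eq]
  calc (((Finset.range n).filter P).card : ℝ) * c = ∑ i ∈ (Finset.range n).filter P, c := by
        rw [Finset.sum_const, nsmul_eq_mul]
    _ ≤ ∑ i ∈ (Finset.range n).filter P, g i :=
        Finset.sum_le_sum fun i hi => h i (Finset.mem_filter.1 hi).2
    _ ≤ _ := Finset.sum_le_sum_of_subset_of_nonneg (Finset.filter_subset _ _) fun i _ _ => h0 i

theorem sum_le_cnt {P : ℕ → Prop} {g : ℕ → ℝ} {a : ℝ} (ha : 0 ≤ a) (h1 : ∀ i, g i ≤ 1)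
    (h : ∀ i, ¬ P i → g i ≤ a) (n : ℕ) : ∑ i ∈ Finset.range n, g i ≤ n * a + cnt P n := by
  classical
  rw [cnt_eq]
  calc ∑ i ∈ Finset.range n, g i ≤ ∑ i ∈ Finset.range n, (a + if P i then 1 else 0) := by
        refine Finset.sum_le_sum fun i _ => ?_
        split_ifs with hP
        · linarith [h1 i]
        · linarith [h i hP]
    _ = _ := by
        rw [Finset.sum_add_distrib, Finset.sum_const, Finset.card_range, nsmul_eq_mul,
          Finset.sum_boole]

theorem cnt_shift (P : ℕ → Prop) (t n : ℕ) : cnt (fun i => P (i + t)) n ≤ cnt P (n + t) := by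
  refine Set.ncard_le_ncard_of_injOn (fun i => i + t) ?_ ?_ (cnt_fin P (n + t))
  · rintro i ⟨hi1, hi2⟩
    exact ⟨by omega, hi2⟩
  · intro i _ j _ hij
    have : i + t = j + t := hij
    omega

theorem cnt_exists (P : ℕ → Prop) (K n : ℕ) : ∀ M ≤ K,
    cnt (fun i => ∃ t < M, P (i + t)) n ≤ M * cnt P (n + K) := by
  intro M
  induction M with
  | zero =>
    intro _
    have h0 : {i : ℕ | i < n ∧ ∃ t < 0, P (i + t)} = ∅ := by
      ext i
      simp
    unfold cnt
    rw [h0, Set.ncard_empty]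
    omega
  | succ M ih =>
    intro hM
    have h1 : cnt (fun i => ∃ t < M + 1, P (i + t)) n ≤
        cnt (fun i => ∃ t < M, P (i + t)) n + cnt (fun i => P (i + M)) n := by
      refine (cnt_mono ?_ n).trans (cnt_or _ _ n)
      rintro i ⟨t, ht, hP⟩
      rcases Nat.lt_succ_iff_lt_or_eq.1 ht with h | rfl
      · exact Or.inl ⟨t, h, hP⟩
      · exact Or.inr hP
    have h2 := ih (by omega)
    have h3 : cnt (fun i => P (i + M)) n ≤ cnt P (n + K) :=
      (cnt_shift P M n).trans (cnt_le_of_le P (by omega))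
    calc _ ≤ _ := h1
      _ ≤ M * cnt P (n + K) + cnt P (n + K) := by omega
      _ = _ := by ring

/-! ### The system -/

attribute [local instance] PiNat.metricSpace

theorem dist_le_of_agree {x y : ℕ → Bool} {M : ℕ} (h : ∀ t < M, x t = y t) :
    dist x y ≤ (1 / 2 : ℝ) ^ M :=
  (PiNat.mem_cylinder_iff_dist_le (E := fun _ : ℕ => Bool)).1 fun i hi => h i hi

theorem agree_of_dist_lt {x y : ℕ → Bool} {M : ℕ} (h : dist x y < (1 / 2 : ℝ) ^ M) :
    ∀ t ≤ M, x t = y t := fun _ ht =>
  PiNat.apply_eq_of_dist_lt (E := fun _ : ℕ => Bool) h ht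

theorem dist_le_one' (x y : ℕ → Bool) : dist x y ≤ 1 :=
  PiNat.dist_le_one (E := fun _ : ℕ => Bool) x y

theorem isClosed_XX : IsClosed XX := by
  rw [← isOpen_compl_iff, Metric.isOpen_iff]
  intro x hx
  have hx' : ¬ ∀ m, blk x 0 m ∈ Lang := hx
  push Not at hx'
  obtain ⟨m, hm⟩ := hx'
  refine ⟨(1 / 2 : ℝ) ^ m, by positivity, fun y hy hy' => hm ?_⟩
  rw [Metric.mem_ball] at hy
  have h := agree_of_dist_lt hy
  have e : blk x 0 m = blk y 0 m := by
    refine eq_blk (blk_length _ _ _) fun i hi => ?_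
    rw [blk_get _ _ hi, Nat.zero_add, h i hi.le]
  rw [e]
  exact hy' m

/-- The shift. -/
def shf (x : XX) : XX := ⟨fun i => x.1 (1 + i), shift_mem x.2 1⟩

theorem shf_iter (x : XX) (n j : ℕ) : (shf^[n] x).1 j = x.1 (n + j) := by
  induction n generalizing j with
  | zero => simp
  | succ n ih =>
    rw [Function.iterate_succ_apply']
    show (shf^[n] x).1 (1 + j) = _
    rw [ih, show n + (1 + j) = n + 1 + j by omega]

theorem continuous_shf : Continuous shf := by
  refine Continuous.subtype_mk ?_ _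
  exact continuous_pi fun i => (continuous_apply (1 + i)).comp continuous_subtype_val

theorem compact_XX : CompactSpace XX := by
  rw [← isCompact_iff_compactSpace]
  exact isClosed_XX.isCompact

/-! ### The definitions of the problem -/

/-- No nonempty closed proper subset `S` satisfies `f(S) ⊆ S`. -/
def IsMinimalMap {X : Type} [TopologicalSpace X] (f : X → X) : Prop :=
  ∀ S : Set X, IsClosed S → S.Nonempty → f '' S ⊆ S → S = univ

/-- `δ`-average-pseudo-orbits. -/
def IsAvgPseudoOrbit {X : Type} [MetricSpace X] (f : X → X) (δ : ℝ) (x : ℕ → X) : Prop :=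
  ∃ N : ℕ, 0 < N ∧ ∀ n ≥ N, ∀ k : ℕ,
    (1 / (n : ℝ)) * ∑ i ∈ Finset.range n, dist (f (x (i + k))) (x (i + k + 1)) < δ

/-- `ε`-shadowing in average. -/
def IsAvgShadowed {X : Type} [MetricSpace X] (f : X → X) (ε : ℝ) (x : ℕ → X) (y : X) : Prop :=
  limsup (fun n : ℕ => (1 / (n : ℝ)) * ∑ i ∈ Finset.range n, dist (f^[i] y) (x i)) atTop < ε

/-- The average shadowing property. -/
def HasASP {X : Type} [MetricSpace X] (f : X → X) : Prop :=
  ∀ ε > 0, ∃ δ > 0, ∀ x : ℕ → X, IsAvgPseudoOrbit f δ x → ∃ y : X, IsAvgShadowed f ε x y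

/-! ### Minimality -/

theorem exists_point : ∃ _ : XX, True := by
  obtain ⟨w, hw, hwl⟩ := (lev 0).exa
  obtain ⟨v, hv, _⟩ := glue (nn_pos 0) (fun _ => w) (fun _ => hwl)
  obtain ⟨y, hy, _⟩ := limit (k := 0) (v := v) (fun t => by rw [hv]; exact hw)
  exact ⟨⟨y, hy⟩, trivial⟩

theorem single_mem_lang (b : Bool) : [b] ∈ Lang := ⟨0, [b], Or.inl rfl, List.infix_rfl⟩

theorem nontrivial_XX : Nontrivial XX := by
  obtain ⟨y, _⟩ := exists_point
  obtain ⟨i, hi⟩ := occurs y.2 (single_mem_lang true)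
  obtain ⟨j, hj⟩ := occurs y.2 (single_mem_lang false)
  have hi' : y.1 i = true := by
    have := congrArg (fun l : Word => l[0]?) hi
    simpa [blk] using this.symm
  have hj' : y.1 j = false := by
    have := congrArg (fun l : Word => l[0]?) hj
    simpa [blk] using this.symm
  refine ⟨⟨shf^[i] y, shf^[j] y, fun h => ?_⟩⟩
  have h0 := congrArg (fun z : XX => z.1 0) h
  simp only [shf_iter, Nat.add_zero, hi', hj'] at h0
  exact Bool.noConfusion h0

theorem minimal_shf : IsMinimalMap shf := by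
  intro S hS hne hinv
  obtain ⟨x, hx⟩ := hne
  have hit : ∀ n, shf^[n] x ∈ S := by
    intro n
    induction n with
    | zero => exact hx
    | succ n ih =>
      rw [Function.iterate_succ_apply']
      exact hinv ⟨_, ih, rfl⟩
  refine eq_univ_of_forall fun y => ?_
  rw [← hS.closure_eq, Metric.mem_closure_iff]
  intro ε hε
  obtain ⟨m, hm⟩ := exists_pow_lt_of_lt_one hε (by norm_num : (1 : ℝ) / 2 < 1)
  obtain ⟨i, hi⟩ := occurs x.2 (y.2 m)
  rw [blk_length] at hi
  refine ⟨shf^[i] x, hit i, lt_of_le_of_lt ?_ hm⟩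
  rw [Subtype.dist_eq]
  refine dist_le_of_agree fun t ht => ?_
  rw [shf_iter]
  have h1 := blk_get y.1 0 ht
  rw [hi, blk_get x.1 i ht, Nat.zero_add] at h1
  exact (Option.some_injective _ h1).symm

/-! ### Average shadowing -/

/-- The steps which are wrong in the first `L + 1` coordinates. -/
def Wrong (x : ℕ → XX) (L i : ℕ) : Prop := ∃ t ≤ L, (x (i + 1)).1 t ≠ (x i).1 (1 + t)

theorem chain {x : ℕ → XX} {L R i : ℕ} (hR : R ≤ L) (h : ∀ s < R, ¬ Wrong x L (i + s)) :
    ∀ t ≤ R, (x (i + t)).1 0 = (x i).1 t := by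
  intro t ht
  have key : ∀ s ≤ t, (x (i + s)).1 (t - s) = (x i).1 t := by
    intro s
    induction s with
    | zero => intro _; rfl
    | succ s ih =>
      intro hs
      rw [← ih (by omega)]
      have h1 := h s (by omega)
      unfold Wrong at h1
      push Not at h1
      have h2 := h1 (t - (s + 1)) (by omega)
      rw [show 1 + (t - (s + 1)) = t - s by omega] at h2
      exact h2
  have := key t le_rfl
  rwa [Nat.sub_self] at this

theorem wrong_count {x : ℕ → XX} {δ : ℝ} {L n : ℕ} (hn : 0 < n)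
    (h : (1 / (n : ℝ)) * ∑ i ∈ Finset.range n, dist (shf (x (i + 0))) (x (i + 0 + 1)) < δ) :
    (cnt (Wrong x L) n : ℝ) ≤ 2 ^ L * δ * n := by
  have hn' : (0 : ℝ) < n := by exact_mod_cast hn
  have h1 : (cnt (Wrong x L) n : ℝ) * (1 / 2) ^ L ≤
      ∑ i ∈ Finset.range n, dist (shf (x (i + 0))) (x (i + 0 + 1)) := by
    refine cnt_mul_le (fun i => dist_nonneg) (fun i hi => ?_) n
    by_contra hc
    push Not at hc
    obtain ⟨t, ht, hne⟩ := hi
    rw [Subtype.dist_eq] at hc
    exact hne (agree_of_dist_lt hc t ht).symm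
  have h2 : ∑ i ∈ Finset.range n, dist (shf (x (i + 0))) (x (i + 0 + 1)) < δ * n := by
    rw [one_div, inv_mul_lt_iff₀ hn'] at h
    linarith
  have h3 : ((1 : ℝ) / 2) ^ L * 2 ^ L = 1 := by rw [← mul_pow]; norm_num
  have h4 : (0 : ℝ) < 2 ^ L := by positivity
  calc (cnt (Wrong x L) n : ℝ) = (cnt (Wrong x L) n : ℝ) * ((1 / 2) ^ L * 2 ^ L) := by
        rw [h3, mul_one]
    _ = (cnt (Wrong x L) n : ℝ) * (1 / 2) ^ L * 2 ^ L := by ring
    _ ≤ δ * n * 2 ^ L := mul_le_mul_of_nonneg_right (h1.trans h2.le) h4.le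
    _ = _ := by ring

/-- The combinatorial part of average shadowing. -/
theorem shadow (x : ℕ → XX) (k L : ℕ) (hL : nn (k + 1) ≤ L) :
    ∃ y ∈ XX, ∀ n, (cnt (fun i => y i ≠ (x i).1 0) n : ℝ) ≤
      n * (1 / 2) ^ k + EE k + 2 * nn (k + 1) * cnt (Wrong x L) (n + 2 * nn (k + 1)) := by
  classical
  set N1 := nn (k + 1) with hN1
  have hb := big k
  have h2k : 1 ≤ 2 ^ k := Nat.one_le_two_pow
  have hb' : 8 * EE k ≤ N1 := by nlinarith
  have hNpos : 1 ≤ N1 := nn_pos (k + 1)
  let u : ℕ → Bool := fun i => (x i).1 0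
  have hex : ∀ t : ℕ, ∃ w ∈ (lev (k + 1)).W, w.length = N1 ∧
      ((∀ s < N1, ¬ Wrong x L (t * N1 + s)) →
        ∀ i, EE k ≤ i → i + EE k < N1 → w[i]? = (blk u (t * N1) N1)[i]?) := by
    intro t
    by_cases hg : ∀ s < N1, ¬ Wrong x L (t * N1 + s)
    · have hblk : blk u (t * N1) N1 = blk (x (t * N1)).1 0 N1 := by
        refine eq_blk (blk_length _ _ _) fun i hi => ?_
        rw [blk_get _ _ hi, Nat.zero_add]
        congr 1
        exact chain hL hg i hi.le
      have hc := lang_cat ((x (t * N1)).2 N1) k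
      rw [← hblk] at hc
      obtain ⟨w, h1, h2, h3⟩ := approx k _ hc (blk_length _ _ _)
      exact ⟨w, h1, h2, fun _ => h3⟩
    · obtain ⟨w, h1, h2⟩ := (lev (k + 1)).exa
      exact ⟨w, h1, h2, fun h => absurd h hg⟩
  choose w hwW hwl hw using hex
  obtain ⟨v, hv, hvi⟩ := glue hNpos w hwl
  have hAl : Al (k + 1) v := fun t => by
    show blk v (t * N1) N1 ∈ _
    rw [hv]; exact hwW t
  obtain ⟨y, hy, hyv⟩ := limit hAl
  refine ⟨y, hy, fun n => ?_⟩
  have hvu : ∀ i, v i ≠ u i → (i < EE k ∨ Bad k i) ∨ ∃ s < N1, Wrong x L (i / N1 * N1 + s) := by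
    intro i hi
    by_contra hc
    push Not at hc
    obtain ⟨⟨h1, h2⟩, h3⟩ := hc
    apply hi
    have hr : i % N1 < N1 := Nat.mod_lt _ hNpos
    have hdm := Nat.div_add_mod i N1
    have hcond : EE k ≤ i % N1 ∧ i % N1 + EE k < N1 := by
      by_contra hcc
      rw [not_and_or, not_le, not_lt] at hcc
      apply h2
      rcases hcc with h | h
      · have h4 : N1 ≤ i := by
          by_contra h5
          rw [Nat.mod_eq_of_lt (by omega)] at h
          omega
        refine ⟨by omega, ?_⟩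
        have h6 : i + EE k = (i % N1 + EE k) + N1 * (i / N1) := by omega
        rw [h6, Nat.add_mul_mod_self_left, Nat.mod_eq_of_lt (by omega)]
        omega
      · refine ⟨by
          have := Nat.mod_le i N1
          omega, ?_⟩
        have h6 : i + EE k = (i % N1 + EE k - N1) + N1 * (i / N1 + 1) := by
          rw [Nat.mul_add]
          omega
        rw [h6, Nat.add_mul_mod_self_left, Nat.mod_eq_of_lt (by omega)]
        omega
    have h7 := hvi i
    rw [hw (i / N1) h3 (i % N1) hcond.1 hcond.2, blk_get u _ hr] at h7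
    have h8 : i / N1 * N1 + i % N1 = i := by
      rw [Nat.mul_comm]
      exact hdm
    rw [h8] at h7
    exact (Option.some_injective _ h7).symm
  have c1 : cnt (fun i => y i ≠ u i) n ≤ cnt (fun i => y i ≠ v i) n + cnt (fun i => v i ≠ u i) n := by
    refine (cnt_mono ?_ n).trans (cnt_or _ _ n)
    intro i hi
    by_cases h : y i = v i
    · right
      rw [← h]
      exact hi
    · left
      exact h
  have c2 : cnt (fun i => v i ≠ u i) n ≤ (cnt (fun i => i < EE k) n + cnt (Bad k) n) +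
      cnt (fun i => ∃ s < N1, Wrong x L (i / N1 * N1 + s)) n :=
    ((cnt_mono hvu n).trans (cnt_or _ _ n)).trans (Nat.add_le_add_right (cnt_or _ _ n) _)
  have c3 : cnt (fun i => i < EE k) n ≤ EE k := by
    have h1 : cnt (fun i => i < EE k) n ≤ (Set.Iio (EE k)).ncard :=
      Set.ncard_le_ncard (fun _ hi => hi.2) (Set.finite_Iio _)
    have h2 : (Set.Iio (EE k)).ncard = EE k := by
      rw [← Finset.coe_Iio, Set.ncard_coe_finset, Nat.card_Iio]
    omega
  have c4 : cnt (fun i => ∃ s < N1, Wrong x L (i / N1 * N1 + s)) n ≤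
      2 * N1 * cnt (Wrong x L) (n + 2 * N1) := by
    have d1 : cnt (fun i => ∃ s < N1, Wrong x L (i / N1 * N1 + s)) n ≤
        cnt (fun i => ∃ t < 2 * N1, (N1 ≤ i + t ∧ Wrong x L (i + t - N1))) n := by
      refine cnt_mono ?_ n
      rintro i ⟨s, hs, hW⟩
      have hr : i % N1 < N1 := Nat.mod_lt _ hNpos
      have hdm := Nat.div_add_mod i N1
      have hdm' : i / N1 * N1 + i % N1 = i := by rw [Nat.mul_comm]; exact hdm
      refine ⟨i / N1 * N1 + s + N1 - i, by omega, by omega, ?_⟩
      have e : i + (i / N1 * N1 + s + N1 - i) - N1 = i / N1 * N1 + s := by omega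
      rw [e]
      exact hW
    have d2 := cnt_exists (fun j => N1 ≤ j ∧ Wrong x L (j - N1)) (2 * N1) n (2 * N1) le_rfl
    have d3 : cnt (fun j => N1 ≤ j ∧ Wrong x L (j - N1)) (n + 2 * N1) ≤
        cnt (Wrong x L) (n + 2 * N1) := by
      refine Set.ncard_le_ncard_of_injOn (fun j => j - N1) ?_ ?_ (cnt_fin _ _)
      · rintro j ⟨h1, h2, h3⟩
        exact ⟨by omega, h3⟩
      · rintro i ⟨_, h1, _⟩ j ⟨_, h2, _⟩ hij
        have : i - N1 = j - N1 := hij
        omega
    exact d1.trans (d2.trans (Nat.mul_le_mul_left _ d3))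
  have r1 := hyv n
  have r2 : (cnt (Bad k) n : ℝ) ≤ n * (1 / 2) ^ (k + 1) := by
    have h4 := bad_count k n
    have h5 : (cnt (Bad k) n : ℝ) * 2 ^ (k + 1) ≤ n := by exact_mod_cast h4
    rw [one_div_pow, mul_one_div, le_div_iff₀ (by positivity)]
    exact h5
  have r3 : (cnt (fun i => y i ≠ u i) n : ℝ) ≤ cnt (fun i => y i ≠ v i) n +
      ((EE k + cnt (Bad k) n) + 2 * N1 * cnt (Wrong x L) (n + 2 * N1)) := by
    have : cnt (fun i => y i ≠ u i) n ≤ cnt (fun i => y i ≠ v i) n +
      ((EE k + cnt (Bad k) n) + 2 * N1 * cnt (Wrong x L) (n + 2 * N1)) := by omega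
    exact_mod_cast this
  have r4 : (n : ℝ) * (1 / 2) ^ (k + 1) + n * (1 / 2) ^ (k + 1) = n * (1 / 2) ^ k := by
    rw [pow_succ]
    ring
  show (cnt (fun i => y i ≠ u i) n : ℝ) ≤ _
  linarith

theorem asp_shf : HasASP shf := by
  intro ε hε
  obtain ⟨M, hM⟩ := exists_pow_lt_of_lt_one (show 0 < ε / 8 by positivity)
    (by norm_num : (1 : ℝ) / 2 < 1)
  obtain ⟨k, hk⟩ := exists_pow_lt_of_lt_one (show 0 < ε / 16 / (M + 1) by positivity)
    (by norm_num : (1 : ℝ) / 2 < 1)
  set N1 := nn (k + 1) with hN1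
  set L := N1 + M with hL
  set D : ℝ := (M + 1) * (2 * N1 + 1) * 2 ^ L with hD
  have hDpos : 0 < D := by positivity
  refine ⟨ε / 16 / D, by positivity, fun x hx => ?_⟩
  obtain ⟨N, hN, hNx⟩ := hx
  obtain ⟨y, hy, hyc⟩ := shadow x k L (by omega)
  refine ⟨⟨y, hy⟩, ?_⟩
  obtain ⟨Q, hQ⟩ := exists_nat_gt (8 * (M * EE k) / ε)
  have hfin : ∀ n ≥ N + M + 2 * N1 + Q + 1,
      (1 / (n : ℝ)) * ∑ i ∈ Finset.range n, dist (shf^[i] ⟨y, hy⟩) (x i) ≤ ε / 2 := by
    intro n hn
    have hn0 : (0 : ℝ) < n := by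
      have : 0 < n := by omega
      exact_mod_cast this
    set m := n + M + 2 * N1 with hm
    have hmn : (m : ℝ) ≤ 2 * n := by
      have : m ≤ 2 * n := by omega
      exact_mod_cast this
    have hw : (cnt (Wrong x L) m : ℝ) ≤ 2 ^ L * (ε / 16 / D) * m :=
      wrong_count (by omega) (hNx m (by omega) 0)
    have s1 : ∑ i ∈ Finset.range n, dist (shf^[i] ⟨y, hy⟩) (x i) ≤
        n * (1 / 2) ^ M + cnt (fun i => ∃ t < M, y (i + t) ≠ (x i).1 t) n := by
      refine sum_le_cnt (by positivity) (fun i => dist_le_one' _ _) (fun i hi => ?_) n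
      refine dist_le_of_agree fun t ht => ?_
      rw [shf_iter]
      by_contra hne
      exact hi ⟨t, ht, hne⟩
    have s2 : cnt (fun i => ∃ t < M, y (i + t) ≠ (x i).1 t) n ≤
        cnt (fun i => ∃ t < M, y (i + t) ≠ (x (i + t)).1 0) n +
          cnt (fun i => ∃ t < M, Wrong x L (i + t)) n := by
      refine (cnt_mono ?_ n).trans (cnt_or _ _ n)
      rintro i ⟨t, ht, hne⟩
      by_cases hW : ∃ t < M, Wrong x L (i + t)
      · exact Or.inr hW
      · left
        push Not at hW
        refine ⟨t, ht, ?_⟩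
        rw [chain (show M ≤ L by omega) hW t ht.le]
        exact hne
    have s3 := cnt_exists (fun j => y j ≠ (x j).1 0) M n M le_rfl
    have s4 := cnt_exists (Wrong x L) M n M le_rfl
    have s5 := hyc (n + M)
    have s6 : cnt (Wrong x L) (n + M) ≤ cnt (Wrong x L) m := cnt_le_of_le _ (by omega)
    have s7 : (cnt (fun i => ∃ t < M, y (i + t) ≠ (x i).1 t) n : ℝ) ≤
        M * cnt (fun j => y j ≠ (x j).1 0) (n + M) + M * cnt (Wrong x L) m := by
      have : cnt (fun i => ∃ t < M, y (i + t) ≠ (x i).1 t) n ≤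
          M * cnt (fun j => y j ≠ (x j).1 0) (n + M) + M * cnt (Wrong x L) m := by
        have := Nat.mul_le_mul_left M s6
        omega
      exact_mod_cast this
    have s8 : ((n + M : ℕ) : ℝ) ≤ m := by
      have : n + M ≤ m := by omega
      exact_mod_cast this
    have s9 : (cnt (fun j => y j ≠ (x j).1 0) (n + M) : ℝ) ≤
        m * (1 / 2) ^ k + EE k + 2 * N1 * cnt (Wrong x L) m := by
      have h1 : ((n + M : ℕ) : ℝ) * (1 / 2) ^ k ≤ m * (1 / 2) ^ k :=
        mul_le_mul_of_nonneg_right s8 (by positivity)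
      have h2 : n + M + 2 * N1 = m := rfl
      rw [h2] at s5
      linarith
    -- assemble
    have hMk : (M : ℝ) * (1 / 2) ^ k ≤ ε / 16 := by
      have h1 : (1 / 2 : ℝ) ^ k * (M + 1) < ε / 16 := by
        rwa [lt_div_iff₀ (by positivity)] at hk
      have h2 : (0 : ℝ) ≤ (1 / 2 : ℝ) ^ k := by positivity
      nlinarith
    have t1 : (M : ℝ) * (m * (1 / 2) ^ k) ≤ ε / 8 * n := by
      have h1 : (M : ℝ) * (m * (1 / 2) ^ k) = m * (M * (1 / 2) ^ k) := by ring
      rw [h1]
      have h2 : (m : ℝ) * (M * (1 / 2) ^ k) ≤ m * (ε / 16) :=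
        mul_le_mul_of_nonneg_left hMk (Nat.cast_nonneg m)
      nlinarith
    have t2 : (M : ℝ) * EE k ≤ ε / 8 * n := by
      have h1 : (Q : ℝ) ≤ n := by
        have : Q ≤ n := by omega
        exact_mod_cast this
      rw [div_lt_iff₀ hε] at hQ
      nlinarith
    have t3 : (M : ℝ) * (2 * N1 * cnt (Wrong x L) m) + M * cnt (Wrong x L) m ≤ ε / 8 * n := by
      have h0 : (0 : ℝ) ≤ cnt (Wrong x L) m := Nat.cast_nonneg _
      have hN0 : (0 : ℝ) ≤ N1 := Nat.cast_nonneg _
      have hM0 : (0 : ℝ) ≤ M := Nat.cast_nonneg _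
      have h1 : (M : ℝ) * (2 * N1 * cnt (Wrong x L) m) + M * cnt (Wrong x L) m ≤
          (M + 1) * (2 * N1 + 1) * cnt (Wrong x L) m := by
        have : (0 : ℝ) ≤ (2 * N1 + 1) * cnt (Wrong x L) m := by positivity
        nlinarith
      have h2 : ((M : ℝ) + 1) * (2 * N1 + 1) * cnt (Wrong x L) m ≤
          (M + 1) * (2 * N1 + 1) * (2 ^ L * (ε / 16 / D) * m) :=
        mul_le_mul_of_nonneg_left hw (by positivity)
      have h3 : ((M : ℝ) + 1) * (2 * N1 + 1) * (2 ^ L * (ε / 16 / D) * m) = ε / 16 * m := by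
        have : ((M : ℝ) + 1) * (2 * N1 + 1) * (2 ^ L * (ε / 16 / D) * m) =
            D * (ε / 16 / D) * m := by rw [hD]; ring
        rw [this, mul_div_cancel₀ _ hDpos.ne']
      have h4 : ε / 16 * m ≤ ε / 8 * n := by nlinarith
      linarith
    have t4 : (M : ℝ) * cnt (fun j => y j ≠ (x j).1 0) (n + M) ≤
        M * (m * (1 / 2) ^ k + EE k + 2 * N1 * cnt (Wrong x L) m) :=
      mul_le_mul_of_nonneg_left s9 (Nat.cast_nonneg M)
    have t5 : (n : ℝ) * (1 / 2) ^ M ≤ ε / 8 * n := by nlinarith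
    rw [one_div, inv_mul_le_iff₀ hn0]
    have t6 : (M : ℝ) * (m * (1 / 2) ^ k + EE k + 2 * N1 * cnt (Wrong x L) m) =
      M * (m * (1 / 2) ^ k) + M * EE k + M * (2 * N1 * cnt (Wrong x L) m) := by ring
    linarith
  unfold IsAvgShadowed
  refine lt_of_le_of_lt (limsup_le_of_le ?_ ?_) (show ε / 2 < ε by linarith)
  · refine isCoboundedUnder_le_of_le atTop (x := 0) fun n => ?_
    exact mul_nonneg (by positivity) (Finset.sum_nonneg fun i _ => dist_nonneg)
  · filter_upwards [eventually_ge_atTop (N + M + 2 * N1 + Q + 1)] with n hn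
    exact hfin n hn

/-- There is a nontrivial minimal system with the average shadowing property. -/
theorem result : ∃ (X : Type) (_ : MetricSpace X) (_ : CompactSpace X) (f : X → X),
    Continuous f ∧ IsMinimalMap f ∧ Nontrivial X ∧ HasASP f :=
  ⟨XX, inferInstance, compact_XX, shf, continuous_shf, minimal_shf, nontrivial_XX, asp_shf⟩

end Pool.Agent.Results.MP_883b72_an.MinimalASP
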